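import Pool.Agent.TH173.OE.Closed

/-!
# A truncated bound for ordered graphs

For a graph `G` on the ordered set `0 < 1 < ... < n - 1` and `u < t` let `dg u t` be the number of
`b` between `u` and `t` such that `ub` is not an edge or `ut` and `bt` are edges. The sum of
`min c (dg u t)` is at least `C(n,3) - bnd n c`.
-/

set_option autoImplicit false
open Finset

namespace Pool.Agent.TH173.KR
open Pool.Agent.TH173.OE

variable (G : ℕ → ℕ → Bool)

theorem potT (n c u : ℕ) : ∀ k t : ℕ, t + k = n → u < t →
    (∑ s ∈ Ico t n, ((if G u s = true then net n c s (gap G u s) else 0) + (gap G u s - c))) ≤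
      tri (net n c t (gap G u t)) + (gap G u t - c) * (n - t) := by
  intro k
  induction k with
  | zero =>
    intro t ht _
    rw [← ht]
    simp
  | succ k ih =>
    intro t ht hu
    have h1 := ih (t + 1) (by omega) (by omega)
    rw [sum_eq_sum_Ico_succ_bot (by omega)]
    rw [gap_step G hu] at h1
    have hn : n - t = (n - (t + 1)) + 1 := by omega
    rw [hn, Nat.mul_succ]
    split_ifs with h
    · rw [if_pos h, add_zero] at h1
      unfold net at h1 ⊢
      rcases Nat.eq_zero_or_pos (n - 1 - t - (c - gap G u t)) with h0 | h0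
      · rw [h0]
        have : n - 1 - (t + 1) - (c - gap G u t) = 0 := by omega
        rw [this] at h1
        omega
      · obtain ⟨x, hx⟩ := Nat.exists_eq_add_of_le' h0
        have : n - 1 - (t + 1) - (c - gap G u t) = x := by omega
        rw [this] at h1
        rw [hx, tri_succ]
        omega
    · rw [if_neg h] at h1
      rw [zero_add]
      rcases Nat.lt_or_ge (gap G u t) c with hg | hg
      · have e1 : gap G u t + 1 - c = 0 := by omega
        have e2 : gap G u t - c = 0 := by omega
        rw [e1, zero_mul, add_zero] at h1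
        rw [e2, zero_mul, add_zero, zero_add, add_zero]
        refine h1.trans (tri_mono ?_)
        unfold net
        omega
      · have e1 : gap G u t + 1 - c = (gap G u t - c) + 1 := by omega
        rw [e1, Nat.succ_mul] at h1
        unfold net at h1 ⊢
        have e2 : c - (gap G u t + 1) = 0 := by omega
        have e3 : c - gap G u t = 0 := by omega
        rw [e2] at h1
        rw [e3]
        rcases Nat.eq_zero_or_pos (n - (t + 1)) with h0 | h0
        · have e4 : n - 1 - (t + 1) - 0 = 0 := by omega
          rw [e4, h0] at h1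
          rw [h0]
          have e5 : tri 0 = 0 := rfl
          rw [e5] at h1
          omega
        · obtain ⟨x, hx⟩ := Nat.exists_eq_add_of_le' h0
          have e4 : n - 1 - (t + 1) - 0 = x := by omega
          have e5 : n - 1 - t - 0 = x + 1 := by omega
          rw [e4] at h1
          rw [e5, tri_succ]
          omega

theorem gap_count (n u : ℕ) : ∀ k t : ℕ, t + k = n → u < t →
    (∑ s ∈ Ico t n, (gap G u s + if G u s = true then n - 1 - s else 0)) =
      gap G u t * (n - t) + tri (n - 1 - t) := by
  intro k
  induction k with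
  | zero =>
    intro t ht _
    rw [← ht]
    have : t + 0 - 1 - t = 0 := by omega
    rw [this]
    simp [tri]
  | succ k ih =>
    intro t ht hu
    have h1 := ih (t + 1) (by omega) (by omega)
    rw [sum_eq_sum_Ico_succ_bot (by omega), h1, gap_step G hu]
    have hn : n - t = (n - (t + 1)) + 1 := by omega
    have ht2 : tri (n - 1 - t) = tri (n - 1 - (t + 1)) + (n - 1 - t) := by
      rcases Nat.eq_zero_or_pos (n - (t + 1)) with h0 | h0
      · have e1 : n - 1 - t = 0 := by omega
        have e2 : n - 1 - (t + 1) = 0 := by omega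
        rw [e1, e2, add_zero]
      · obtain ⟨x, hx⟩ := Nat.exists_eq_add_of_le' h0
        have e1 : n - 1 - t = x + 1 := by omega
        have e2 : n - 1 - (t + 1) = x := by omega
        rw [e1, e2, tri_succ]
    rw [hn, ht2]
    have e3 : n - (t + 1) = n - 1 - t := by omega
    rw [e3]
    split_ifs with h
    · ring
    · ring

/-- the number of `b` between `u` and `t` such that `ub` is not an edge, or `ut`, `bt` are -/
def dg (u t : ℕ) : ℕ :=
  ((Ico (u + 1) t).filter fun b => ¬ G u b = true ∨ (G u t = true ∧ G b t = true)).card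

theorem dg_ge (u t : ℕ) : gap G u t + (if G u t = true then mid G u t else 0) ≤ dg G u t := by
  unfold gap mid dg
  split_ifs with h
  · rw [← card_union_of_disjoint]
    · apply card_le_card
      intro b
      simp only [mem_union, mem_filter]
      rintro (⟨h1, h2⟩ | ⟨h1, h2, h3⟩)
      · exact ⟨h1, Or.inl h2⟩
      · exact ⟨h1, Or.inr ⟨h, h3⟩⟩
    · rw [disjoint_left]
      intro b h1 h2
      simp only [mem_filter] at h1 h2
      exact h1.2 h2.2.1
  · rw [add_zero]
    apply card_le_card
    intro b
    simp only [mem_filter]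
    rintro ⟨h1, h2⟩
    exact ⟨h1, Or.inl h2⟩

theorem min_sum (n c : ℕ) :
    n.choose 3 ≤ bnd n c + ∑ t ∈ range n, ∑ u ∈ range t, min c (dg G u t) := by
  have e0 : (∑ t ∈ range n, ∑ u ∈ range t, (gap G u t + if G u t = true then n - 1 - t else 0)) =
      n.choose 3 := by
    have e := sum_Ico_Ico_comm' 0 n fun u t => (gap G u t + if G u t = true then n - 1 - t else 0)
    simp only [← range_eq_Ico] at e
    rw [← e]
    have h := snd_eq n 0
    rw [Nat.sub_zero] at h
    rw [← h]
    apply sum_congr rfl
    intro u hu
    rw [mem_range] at hu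
    rw [gap_count G n u (n - (u + 1)) (u + 1) (by omega) (by omega)]
    have e1 : gap G u (u + 1) = 0 := by simp [gap]
    rw [e1, zero_mul, zero_add]
    congr 1
    omega
  have h1 : ∀ t ∈ range n, ∀ u ∈ range t,
      (gap G u t + if G u t = true then n - 1 - t else 0) ≤
      min c (dg G u t) +
      (if G u t = true then min (n - 1 - t) (c - cnt G t (u + 1)) else 0) +
      ((if G u t = true then net n c t (gap G u t) else 0) + (gap G u t - c)) := by
    intro t _ u _
    have h2 := dg_ge G u t
    have h3 := mid_ge G u t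
    unfold net
    split_ifs with h
    · rw [if_pos h] at h2
      omega
    · rw [if_neg h] at h2
      omega
  have h2 : (∑ t ∈ range n, ∑ u ∈ range t, if G u t = true then
      min (n - 1 - t) (c - cnt G t (u + 1)) else 0) ≤
      ∑ t ∈ range n, ∑ i ∈ range t, min (n - 1 - t) (c - i) :=
    sum_le_sum fun t _ => rank_le G (fun i => min (n - 1 - t) (c - i)) t
  have h3 : (∑ t ∈ range n, ∑ u ∈ range t, ((if G u t = true then
      net n c t (gap G u t) else 0) + (gap G u t - c))) ≤
      ∑ u ∈ range n, tri (n - 2 - u - c) := by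
    have e := sum_Ico_Ico_comm' 0 n fun u t =>
      (if G u t = true then net n c t (gap G u t) else 0) + (gap G u t - c)
    simp only [← range_eq_Ico] at e
    rw [← e]
    apply sum_le_sum
    intro u hu
    rw [mem_range] at hu
    refine (potT G n c u (n - (u + 1)) (u + 1) (by omega) (by omega)).trans ?_
    have e1 : gap G u (u + 1) = 0 := by simp [gap]
    rw [e1]
    simp only [Nat.zero_sub, zero_mul, add_zero]
    apply tri_mono
    unfold net
    omega
  rw [← e0]
  calc _ ≤ ∑ t ∈ range n, ∑ u ∈ range t, (min c (dg G u t) +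
        (if G u t = true then min (n - 1 - t) (c - cnt G t (u + 1)) else 0) +
        ((if G u t = true then net n c t (gap G u t) else 0) + (gap G u t - c))) :=
        sum_le_sum fun t ht => sum_le_sum (h1 t ht)
    _ = (∑ t ∈ range n, ∑ u ∈ range t, min c (dg G u t)) +
        (∑ t ∈ range n, ∑ u ∈ range t, if G u t = true then
          min (n - 1 - t) (c - cnt G t (u + 1)) else 0) +
        (∑ t ∈ range n, ∑ u ∈ range t, ((if G u t = true then net n c t (gap G u t) else 0) +
          (gap G u t - c))) := by
        simp only [sum_add_distrib]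
    _ ≤ _ := by unfold bnd; omega

/-- Kalai's number -/
theorem bnd_kalai (n s : ℕ) (h : 3 * s ≤ n) :
    (bnd n s : ℤ) + ∑ i ∈ Icc 1 s, (((n - 2 * i).choose 2 : ℤ) - (i.choose 2 : ℤ)) =
      (n.choose 3 : ℤ) := by
  induction s with
  | zero =>
    rcases Nat.eq_zero_or_pos n with rfl | hn
    · simp [bnd]
    · rw [bnd_eq n 0 (by omega)]
      simp [Nat.choose]
  | succ s ih =>
    have ih := ih (by omega)
    rw [sum_Icc_succ_top (by omega)]
    rw [bnd_eq n s (by omega)] at ih
    rw [bnd_eq n (s + 1) (by omega)]
    obtain ⟨m, rfl⟩ : ∃ m, n = 3 * (s + 1) + m := ⟨n - 3 * (s + 1), by omega⟩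
    have e1 : 3 * (s + 1) + m - 1 - s = 2 * s + m + 2 := by omega
    have e2 : 3 * (s + 1) + m - s = 2 * s + m + 3 := by omega
    have e3 : 3 * (s + 1) + m - 1 - (s + 1) = 2 * s + m + 1 := by omega
    have e4 : 3 * (s + 1) + m - (s + 1) = 2 * s + m + 2 := by omega
    have e5 : 3 * (s + 1) + m - 2 * (s + 1) = s + m + 1 := by omega
    rw [e1, e2] at ih
    rw [e3, e4, e5]
    have a1 : (2 * s + m + 3).choose 3 = (2 * s + m + 2).choose 2 + (2 * s + m + 2).choose 3 :=
      Nat.choose_succ_succ' (2 * s + m + 2) 2
    have a2 : (s + 2).choose 3 = (s + 1).choose 2 + (s + 1).choose 3 :=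
      Nat.choose_succ_succ' (s + 1) 2
    have a3 := two_choose (2 * s + m + 1)
    have a4 := two_choose (s + m)
    have a5 := two_choose s
    have a6 := two_choose (s + 1)
    rw [show s + 1 + 1 = s + 2 by ring] at *
    rw [show 2 * s + m + 1 + 1 = 2 * s + m + 2 by ring] at *
    push_cast at ih ⊢
    zify at a1 a2 a3 a4 a5 a6
    have : (2 : ℤ) ≠ 0 := by norm_num
    rw [← ih]
    apply mul_left_cancel₀ this
    rw [a1, a2]
    linear_combination (2 * s + m + 1) * a6 - (2 * s + m + 2) * a5 + a4 - a3

end Pool.Agent.TH173.KR
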