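import Mathlib

/-!
# A lower bound for the rank of Kalai's matrix

Let the vertices be ordered, `u < b < t` with `{u, b, t}` in `G`. If for every pair `u, t` we keep
at most `s` of the middle vertices `b`, then the corresponding rows of the matrix `M_s(G)` are
linearly independent.
-/

set_option autoImplicit false
open Finset

namespace Pool.Agent.TH173.KR

/-- the field of rational functions -/
abbrev KK (n s : ℕ) := FractionRing (MvPolynomial (Fin s × Fin n) ℚ)

/-- the variable `x_{i,w}` -/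
noncomputable def xv {n s : ℕ} (i : Fin s) (w : Fin n) : KK n s :=
  algebraMap (MvPolynomial (Fin s × Fin n) ℚ)
    (FractionRing (MvPolynomial (Fin s × Fin n) ℚ)) (MvPolynomial.X (i, w))

theorem generic {n s : ℕ} {ι : Type} (B : Finset ι) (hB : B.card ≤ s) (v : ι → Fin n)
    (hv : ∀ b ∈ B, ∀ b' ∈ B, v b = v b' → b = b') (a : ι → KK n s)
    (h : ∀ i : Fin s, ∑ b ∈ B, a b * xv i (v b) = 0) : ∀ b ∈ B, a b = 0 := by
  classical
  obtain ⟨f⟩ : Nonempty ({b // b ∈ B} ↪ Fin s) := by
    apply Function.Embedding.nonempty_of_card_le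
    simpa using hB
  let A : Matrix {b // b ∈ B} {b // b ∈ B} (MvPolynomial (Fin s × Fin n) ℚ) :=
    Matrix.of fun b' b => MvPolynomial.X (f b', v b.1)
  let φ : MvPolynomial (Fin s × Fin n) ℚ →+* ℚ :=
    MvPolynomial.eval (fun p => if ∃ b : {b // b ∈ B}, p = (f b, v b.1) then (1 : ℚ) else 0)
  have h1 : φ.mapMatrix A = 1 := by
    ext b' b
    rw [RingHom.mapMatrix_apply, Matrix.map_apply, Matrix.one_apply]
    simp only [A, φ, Matrix.of_apply, MvPolynomial.eval_X]
    congr 1
    apply propext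
    constructor
    · rintro ⟨b'', hb⟩
      rw [Prod.mk.injEq] at hb
      have e1 := f.injective hb.1
      have e2 := hv _ b.2 _ b''.2 hb.2
      apply Subtype.ext
      rw [e2, e1]
    · rintro rfl
      exact ⟨b', rfl⟩
  have h2 : A.det ≠ 0 := by
    intro h0
    have h3 := congrArg φ h0
    rw [RingHom.map_det, h1, Matrix.det_one, map_zero] at h3
    exact one_ne_zero h3
  let g : MvPolynomial (Fin s × Fin n) ℚ →+* KK n s := algebraMap _ _
  have h3 : (g.mapMatrix A).det ≠ 0 := by
    rw [← RingHom.map_det]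
    intro h0
    apply h2
    apply IsFractionRing.injective (MvPolynomial (Fin s × Fin n) ℚ)
      (FractionRing (MvPolynomial (Fin s × Fin n) ℚ))
    rw [map_zero]
    exact h0
  have h4 : (g.mapMatrix A).mulVec (fun b => a b.1) = 0 := by
    ext b'
    have h5 := h (f b')
    rw [← sum_coe_sort] at h5
    rw [Matrix.mulVec, dotProduct, Pi.zero_apply, ← h5]
    apply sum_congr rfl
    intro b _
    rw [mul_comm]
    rfl
  have h5 := Matrix.eq_zero_of_mulVec_eq_zero h3 h4
  intro b hb
  exact congrFun h5 ⟨b, hb⟩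

/-- the entry of Kalai's matrix -/
noncomputable def ent {n s : ℕ} (e : Finset (Fin n)) (i : Fin s) (p : Fin n × Fin n) : KK n s :=
  if p.1 ∈ e ∧ p.2 ∈ e then
    ∑ w ∈ e \ {p.1, p.2}, (if p.1 < w ∧ w < p.2 then xv i w else - xv i w)
  else 0

/-- the sign -/
noncomputable def sg {n : ℕ} (s : ℕ) (p : Fin n × Fin n) (w : Fin n) : KK n s :=
  if p.1 < w ∧ w < p.2 then 1 else -1

theorem sg_ne {n s : ℕ} (p : Fin n × Fin n) (w : Fin n) : sg s p w ≠ 0 := by
  unfold sg
  split_ifs
  · exact one_ne_zero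
  · exact neg_ne_zero.2 one_ne_zero

theorem ent_eq {n s : ℕ} {x y w : Fin n} (hxw : x ≠ w) (hyw : y ≠ w) (i : Fin s)
    (p : Fin n × Fin n) (hp : p = (x, y) ∨ p = (y, x)) :
    ent ({x, w, y} : Finset (Fin n)) i p = sg s p w * xv i w := by
  have h1 : p.1 ∈ ({x, w, y} : Finset (Fin n)) ∧ p.2 ∈ ({x, w, y} : Finset (Fin n)) := by
    rcases hp with rfl | rfl <;> simp
  have h2 : ({x, w, y} : Finset (Fin n)) \ {p.1, p.2} = {w} := by
    ext z
    simp only [mem_sdiff, mem_insert, mem_singleton, not_or]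
    constructor
    · rintro ⟨h3, h4, h5⟩
      rcases hp with rfl | rfl
      · rcases h3 with rfl | rfl | rfl
        · exact absurd rfl h4
        · rfl
        · exact absurd rfl h5
      · rcases h3 with rfl | rfl | rfl
        · exact absurd rfl h5
        · rfl
        · exact absurd rfl h4
    · rintro rfl
      rcases hp with rfl | rfl
      · exact ⟨Or.inr (Or.inl rfl), hxw.symm, hyw.symm⟩
      · exact ⟨Or.inr (Or.inl rfl), hyw.symm, hxw.symm⟩
  unfold ent sg
  rw [if_pos h1, h2, sum_singleton]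
  split_ifs
  · rw [one_mul]
  · rw [neg_one_mul]

/-- **Independence**: the coefficients vanish. -/
theorem indep {n s : ℕ} (v : ℕ → Fin n) (hv : ∀ x < n, ∀ y < n, v x = v y → x = y)
    (P : Finset (ℕ × ℕ × ℕ)) (hP : ∀ p ∈ P, p.1 < p.2.1 ∧ p.2.1 < p.2.2 ∧ p.2.2 < n)
    (hs : ∀ u t : ℕ, (P.filter fun p => p.1 = u ∧ p.2.2 = t).card ≤ s)
    (a : ℕ × ℕ × ℕ → KK n s)
    (ha : ∀ (i : Fin s) (q : Fin n × Fin n), q.1 < q.2 →
      ∑ p ∈ P, a p * ent {v p.1, v p.2.1, v p.2.2} i q = 0) :
    ∀ m : ℕ, ∀ p ∈ P, n ≤ m + (p.2.2 - p.1) → a p = 0 := by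
  intro m
  induction m with
  | zero =>
    intro p hp h
    have := hP p hp
    omega
  | succ m ih =>
    intro p0 hp0 h0
    rcases Nat.lt_or_ge (m + (p0.2.2 - p0.1)) n with h1 | h1
    swap
    · exact ih p0 hp0 h1
    obtain ⟨k1, k2, k3⟩ := hP p0 hp0
    have hne : v p0.1 ≠ v p0.2.2 := by
      intro h
      have := hv _ (by omega) _ k3 h
      omega
    -- the column
    obtain ⟨q, hq, hq'⟩ : ∃ q : Fin n × Fin n, q.1 < q.2 ∧
        (q = (v p0.1, v p0.2.2) ∨ q = (v p0.2.2, v p0.1)) := by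
      rcases lt_or_gt_of_ne hne with h | h
      · exact ⟨(v p0.1, v p0.2.2), h, Or.inl rfl⟩
      · exact ⟨(v p0.2.2, v p0.1), h, Or.inr rfl⟩
    have hF := generic (P.filter fun p => p.1 = p0.1 ∧ p.2.2 = p0.2.2) (hs _ _)
      (fun p => v p.2.1) ?_ (fun p => a p * sg s q (v p.2.1)) ?_
    · have h2 := hF p0 (mem_filter.2 ⟨hp0, rfl, rfl⟩)
      rcases mul_eq_zero.1 h2 with h3 | h3
      · exact h3
      · exact absurd h3 (sg_ne _ _)
    · rintro ⟨u, b, t⟩ hb ⟨u', b', t'⟩ hb' hbb
      rw [mem_filter] at hb hb'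
      simp only at hb hb' hbb
      have e1 := hP _ hb.1
      have e2 := hP _ hb'.1
      simp only at e1 e2
      have e3 := hv _ (by omega) _ (by omega) hbb
      rw [e3, hb.2.1, hb.2.2, hb'.2.1, hb'.2.2]
    · intro i
      have h3 := ha i q hq
      rw [← sum_filter_add_sum_filter_not P (fun p => p.1 = p0.1 ∧ p.2.2 = p0.2.2)] at h3
      have h4 : (∑ p ∈ P.filter (fun p => ¬ (p.1 = p0.1 ∧ p.2.2 = p0.2.2)),
          a p * ent {v p.1, v p.2.1, v p.2.2} i q) = 0 := by
        apply sum_eq_zero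
        rintro ⟨u, b, t⟩ hp
        rw [mem_filter] at hp
        obtain ⟨hp, hpn⟩ := hp
        simp only at hpn ⊢
        have e1 := hP _ hp
        simp only at e1
        rcases Nat.lt_or_ge (p0.2.2 - p0.1) (t - u) with h5 | h5
        · have h6 := ih _ hp (by simp only; omega)
          rw [h6, zero_mul]
        · have h6 : ¬ (q.1 ∈ ({v u, v b, v t} : Finset (Fin n)) ∧
              q.2 ∈ ({v u, v b, v t} : Finset (Fin n))) := by
            rintro ⟨h7, h8⟩
            have h9 : v p0.1 ∈ ({v u, v b, v t} : Finset (Fin n)) ∧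
                v p0.2.2 ∈ ({v u, v b, v t} : Finset (Fin n)) := by
              rcases hq' with rfl | rfl
              · exact ⟨h7, h8⟩
              · exact ⟨h8, h7⟩
            simp only [mem_insert, mem_singleton] at h9
            have m1 : p0.1 = u ∨ p0.1 = b ∨ p0.1 = t := by
              rcases h9.1 with h | h | h
              · exact Or.inl (hv _ (by omega) _ (by omega) h)
              · exact Or.inr (Or.inl (hv _ (by omega) _ (by omega) h))
              · exact Or.inr (Or.inr (hv _ (by omega) _ (by omega) h))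
            have m2 : p0.2.2 = u ∨ p0.2.2 = b ∨ p0.2.2 = t := by
              rcases h9.2 with h | h | h
              · exact Or.inl (hv _ (by omega) _ (by omega) h)
              · exact Or.inr (Or.inl (hv _ (by omega) _ (by omega) h))
              · exact Or.inr (Or.inr (hv _ (by omega) _ (by omega) h))
            omega
          unfold ent
          rw [if_neg h6, mul_zero]
      rw [h4, add_zero] at h3
      rw [← h3]
      apply sum_congr rfl
      rintro ⟨u, b, t⟩ hp
      rw [mem_filter] at hp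
      obtain ⟨hp, hpe⟩ := hp
      simp only at hpe ⊢
      have e1 := hP _ hp
      simp only at e1
      rw [ent_eq (x := v u) (y := v t) (w := v b) ?_ ?_ i q ?_]
      · rw [mul_assoc]
      · intro h
        have := hv _ (by omega) _ (by omega) h
        omega
      · intro h
        have := hv _ (by omega) _ (by omega) h
        omega
      · rw [hpe.1, hpe.2]
        exact hq'

/-- **The rank bound.** -/
theorem rank_ge {n s : ℕ} (G : Finset (Finset (Fin n))) {C : Type} [Fintype C]
    (M : Matrix {e : Finset (Fin n) // e ∈ G} C (KK n s)) (col : Fin s → Fin n × Fin n → C)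
    (hM : ∀ (e : {e : Finset (Fin n) // e ∈ G}) (i : Fin s) (q : Fin n × Fin n), q.1 < q.2 →
      M e (col i q) = ent e.1 i q)
    (v : ℕ → Fin n) (hv : ∀ x < n, ∀ y < n, v x = v y → x = y)
    (P : Finset (ℕ × ℕ × ℕ)) (hP : ∀ p ∈ P, p.1 < p.2.1 ∧ p.2.1 < p.2.2 ∧ p.2.2 < n)
    (hG : ∀ p ∈ P, ({v p.1, v p.2.1, v p.2.2} : Finset (Fin n)) ∈ G)
    (hs : ∀ u t : ℕ, (P.filter fun p => p.1 = u ∧ p.2.2 = t).card ≤ s) :
    P.card ≤ M.rank := by
  classical
  let f : {p // p ∈ P} → (C → KK n s) := fun p => M ⟨_, hG p.1 p.2⟩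
  have hf : LinearIndependent (KK n s) f := by
    rw [Fintype.linearIndependent_iff]
    intro g hg
    set a : ℕ × ℕ × ℕ → KK n s := fun p => if h : p ∈ P then g ⟨p, h⟩ else 0 with ha
    have h1 : ∀ (i : Fin s) (q : Fin n × Fin n), q.1 < q.2 →
        ∑ p ∈ P, a p * ent {v p.1, v p.2.1, v p.2.2} i q = 0 := by
      intro i q hq
      have h2 := congrFun hg (col i q)
      rw [Finset.sum_apply, Pi.zero_apply] at h2
      rw [← sum_coe_sort, ← h2]
      apply sum_congr rfl
      rintro ⟨p, hp⟩ _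
      simp only [Pi.smul_apply, smul_eq_mul, f]
      rw [hM _ i q hq]
      simp only [ha, dif_pos hp]
    rintro ⟨p, hp⟩
    have h2 := indep v hv P hP hs a h1 n p hp (by omega)
    simp only [ha, dif_pos hp] at h2
    exact h2
  have h1 := finrank_span_eq_card hf
  rw [Fintype.card_coe] at h1
  rw [← h1, Matrix.rank_eq_finrank_span_row]
  apply Submodule.finrank_mono
  apply Submodule.span_mono
  rintro _ ⟨p, rfl⟩
  exact ⟨_, rfl⟩

end Pool.Agent.TH173.KR
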