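import Pool.Agent.TH173.KR.Alg

/-!
# A lower bound for the rank of Kalai's matrix, II

Let `r` be a symmetric function on pairs of vertices. If for every pair `x, y` we keep at most `s`
of the edges `{x, w, y}` of `G` for which `r x w` and `r w y` are less than `r x y`, then the
corresponding rows of the matrix `M_s(G)` are linearly independent.
-/

set_option autoImplicit false
open Finset

namespace Pool.Agent.TH173.KR

/-- **Independence**: the coefficients vanish. -/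
theorem indep2 {n s : ℕ} {ι : Type} [DecidableEq ι] (A : Finset ι) (v : ι → Fin n)
    (hv : ∀ x ∈ A, ∀ y ∈ A, v x = v y → x = y)
    (P : Finset (ι × ι × ι)) (hP : ∀ p ∈ P, (p.1 ∈ A ∧ p.2.1 ∈ A ∧ p.2.2 ∈ A) ∧
      (p.1 ≠ p.2.1 ∧ p.2.2 ≠ p.2.1 ∧ p.1 ≠ p.2.2))
    (r : ι → ι → ℕ) (hsym : ∀ x y, r x y = r y x)
    (hr : ∀ p ∈ P, r p.1 p.2.1 < r p.1 p.2.2 ∧ r p.2.1 p.2.2 < r p.1 p.2.2)
    (hor : ∀ p ∈ P, ∀ q ∈ P, ¬ (p.1 = q.2.2 ∧ p.2.2 = q.1))
    (R : ℕ) (hR : ∀ p ∈ P, r p.1 p.2.2 < R)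
    (hs : ∀ u t : ι, (P.filter fun p => p.1 = u ∧ p.2.2 = t).card ≤ s)
    (a : ι × ι × ι → KK n s)
    (ha : ∀ (i : Fin s) (q : Fin n × Fin n), q.1 < q.2 →
      ∑ p ∈ P, a p * ent {v p.1, v p.2.1, v p.2.2} i q = 0) :
    ∀ m : ℕ, ∀ p ∈ P, R ≤ m + r p.1 p.2.2 → a p = 0 := by
  intro m
  induction m with
  | zero =>
    intro p hp h
    have := hR p hp
    omega
  | succ m ih =>
    intro p0 hp0 h0
    rcases Nat.lt_or_ge (m + r p0.1 p0.2.2) R with h1 | h1
    swap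
    · exact ih p0 hp0 h1
    obtain ⟨⟨k1, k2, k3⟩, k4, k5, k6⟩ := hP p0 hp0
    have hne : v p0.1 ≠ v p0.2.2 := fun h => k6 (hv _ k1 _ k3 h)
    -- the column
    obtain ⟨q, hq, hq'⟩ : ∃ q : Fin n × Fin n, q.1 < q.2 ∧
        (q = (v p0.1, v p0.2.2) ∨ q = (v p0.2.2, v p0.1)) := by
      rcases lt_or_gt_of_ne hne with h | h
      · exact ⟨(v p0.1, v p0.2.2), h, Or.inl rfl⟩
      · exact ⟨(v p0.2.2, v p0.1), h, Or.inr rfl⟩
    have hF := generic (P.filter fun p => p.1 = p0.1 ∧ p.2.2 = p0.2.2) (hs _ _)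
      (fun p => v p.2.1) ?_ (fun p => a p * sg s q (v p.2.1)) ?_
    · have h2 := hF p0 (mem_filter.2 ⟨hp0, rfl, rfl⟩)
      rcases mul_eq_zero.1 h2 with h3 | h3
      · exact h3
      · exact absurd h3 (sg_ne _ _)
    · rintro ⟨u, b, t⟩ hb ⟨u', b', t'⟩ hb' hbb
      rw [mem_filter] at hb hb'
      simp only at hb hb' hbb
      have e1 := hP _ hb.1
      have e2 := hP _ hb'.1
      simp only at e1 e2
      have e3 := hv _ e1.1.2.1 _ e2.1.2.1 hbb
      rw [e3, hb.2.1, hb.2.2, hb'.2.1, hb'.2.2]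
    · intro i
      have h3 := ha i q hq
      rw [← sum_filter_add_sum_filter_not P (fun p => p.1 = p0.1 ∧ p.2.2 = p0.2.2)] at h3
      have h4 : (∑ p ∈ P.filter (fun p => ¬ (p.1 = p0.1 ∧ p.2.2 = p0.2.2)),
          a p * ent {v p.1, v p.2.1, v p.2.2} i q) = 0 := by
        apply sum_eq_zero
        rintro ⟨u, b, t⟩ hp
        rw [mem_filter] at hp
        obtain ⟨hp, hpn⟩ := hp
        simp only at hpn ⊢
        obtain ⟨⟨l1, l2, l3⟩, l4, l5, l6⟩ := hP _ hp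
        simp only at l1 l2 l3 l4 l5 l6
        rcases Nat.lt_or_ge (r p0.1 p0.2.2) (r u t) with h5 | h5
        · have h6 := ih _ hp (by simp only; omega)
          rw [h6, zero_mul]
        · have h6 : ¬ (q.1 ∈ ({v u, v b, v t} : Finset (Fin n)) ∧
              q.2 ∈ ({v u, v b, v t} : Finset (Fin n))) := by
            rintro ⟨h7, h8⟩
            have h9 : v p0.1 ∈ ({v u, v b, v t} : Finset (Fin n)) ∧
                v p0.2.2 ∈ ({v u, v b, v t} : Finset (Fin n)) := by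
              rcases hq' with rfl | rfl
              · exact ⟨h7, h8⟩
              · exact ⟨h8, h7⟩
            simp only [mem_insert, mem_singleton] at h9
            have m1 : p0.1 = u ∨ p0.1 = b ∨ p0.1 = t := by
              rcases h9.1 with h | h | h
              · exact Or.inl (hv _ k1 _ l1 h)
              · exact Or.inr (Or.inl (hv _ k1 _ l2 h))
              · exact Or.inr (Or.inr (hv _ k1 _ l3 h))
            have m2 : p0.2.2 = u ∨ p0.2.2 = b ∨ p0.2.2 = t := by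
              rcases h9.2 with h | h | h
              · exact Or.inl (hv _ k3 _ l1 h)
              · exact Or.inr (Or.inl (hv _ k3 _ l2 h))
              · exact Or.inr (Or.inr (hv _ k3 _ l3 h))
            obtain ⟨r1, r2⟩ := hr _ hp
            simp only at r1 r2
            have r3 := hsym b u
            have r4 := hsym t b
            rcases m1 with m1 | m1 | m1 <;> rcases m2 with m2 | m2 | m2
            · exact k6 (m1.trans m2.symm)
            · rw [m1, m2] at h5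
              omega
            · exact hpn ⟨m1.symm, m2.symm⟩
            · rw [m1, m2] at h5
              omega
            · exact k6 (m1.trans m2.symm)
            · rw [m1, m2] at h5
              omega
            · exact hor _ hp0 _ hp ⟨m1, m2⟩
            · rw [m1, m2] at h5
              omega
            · exact k6 (m1.trans m2.symm)
          unfold ent
          rw [if_neg h6, mul_zero]
      rw [h4, add_zero] at h3
      rw [← h3]
      apply sum_congr rfl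
      rintro ⟨u, b, t⟩ hp
      rw [mem_filter] at hp
      obtain ⟨hp, hpe⟩ := hp
      simp only at hpe ⊢
      obtain ⟨⟨l1, l2, l3⟩, l4, l5, l6⟩ := hP _ hp
      simp only at l1 l2 l3 l4 l5 l6
      rw [ent_eq (x := v u) (y := v t) (w := v b) (fun h => l4 (hv _ l1 _ l2 h))
        (fun h => l5 (hv _ l3 _ l2 h)) i q ?_]
      · rw [mul_assoc]
      · rw [hpe.1, hpe.2]
        exact hq'

/-- **The rank bound.** -/
theorem rank_ge2 {n s : ℕ} (G : Finset (Finset (Fin n))) {C : Type} [Fintype C]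
    (M : Matrix {e : Finset (Fin n) // e ∈ G} C (KK n s)) (col : Fin s → Fin n × Fin n → C)
    (hM : ∀ (e : {e : Finset (Fin n) // e ∈ G}) (i : Fin s) (q : Fin n × Fin n), q.1 < q.2 →
      M e (col i q) = ent e.1 i q)
    {ι : Type} [DecidableEq ι] (A : Finset ι) (v : ι → Fin n)
    (hv : ∀ x ∈ A, ∀ y ∈ A, v x = v y → x = y)
    (P : Finset (ι × ι × ι)) (hP : ∀ p ∈ P, (p.1 ∈ A ∧ p.2.1 ∈ A ∧ p.2.2 ∈ A) ∧
      (p.1 ≠ p.2.1 ∧ p.2.2 ≠ p.2.1 ∧ p.1 ≠ p.2.2))
    (r : ι → ι → ℕ) (hsym : ∀ x y, r x y = r y x)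
    (hr : ∀ p ∈ P, r p.1 p.2.1 < r p.1 p.2.2 ∧ r p.2.1 p.2.2 < r p.1 p.2.2)
    (hor : ∀ p ∈ P, ∀ q ∈ P, ¬ (p.1 = q.2.2 ∧ p.2.2 = q.1))
    (hG : ∀ p ∈ P, ({v p.1, v p.2.1, v p.2.2} : Finset (Fin n)) ∈ G)
    (hs : ∀ u t : ι, (P.filter fun p => p.1 = u ∧ p.2.2 = t).card ≤ s) :
    P.card ≤ M.rank := by
  classical
  let f : {p // p ∈ P} → (C → KK n s) := fun p => M ⟨_, hG p.1 p.2⟩
  have hf : LinearIndependent (KK n s) f := by
    rw [Fintype.linearIndependent_iff]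
    intro g hg
    set a : ι × ι × ι → KK n s := fun p => if h : p ∈ P then g ⟨p, h⟩ else 0 with ha
    have h1 : ∀ (i : Fin s) (q : Fin n × Fin n), q.1 < q.2 →
        ∑ p ∈ P, a p * ent {v p.1, v p.2.1, v p.2.2} i q = 0 := by
      intro i q hq
      have h2 := congrFun hg (col i q)
      rw [Finset.sum_apply, Pi.zero_apply] at h2
      rw [← sum_coe_sort, ← h2]
      apply sum_congr rfl
      rintro ⟨p, hp⟩ _
      simp only [Pi.smul_apply, smul_eq_mul, f]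
      rw [hM _ i q hq]
      simp only [ha, dif_pos hp]
    set R := (∑ p ∈ P, r p.1 p.2.2) + 1 with hR
    have hRb : ∀ p ∈ P, r p.1 p.2.2 < R := by
      intro p hp
      have := single_le_sum (f := fun p : ι × ι × ι => r p.1 p.2.2)
        (fun p _ => Nat.zero_le _) hp
      omega
    rintro ⟨p, hp⟩
    have h2 := indep2 A v hv P hP r hsym hr hor R hRb hs a h1 R p hp (by omega)
    simp only [ha, dif_pos hp] at h2
    exact h2
  have h1 := finrank_span_eq_card hf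
  rw [Fintype.card_coe] at h1
  rw [← h1, Matrix.rank_eq_finrank_span_row]
  apply Submodule.finrank_mono
  apply Submodule.span_mono
  rintro _ ⟨p, rfl⟩
  exact ⟨_, rfl⟩

/-- the pivots of two triples -/
theorem pivot_lt {n : ℕ} {ι : Type} [DecidableEq ι] (A : Finset ι) (v : ι → Fin n)
    (hv : ∀ x ∈ A, ∀ y ∈ A, v x = v y → x = y)
    (P : Finset (ι × ι × ι)) (hP : ∀ p ∈ P, (p.1 ∈ A ∧ p.2.1 ∈ A ∧ p.2.2 ∈ A) ∧
      (p.1 ≠ p.2.1 ∧ p.2.2 ≠ p.2.1 ∧ p.1 ≠ p.2.2))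
    (r : ι → ι → ℕ) (hsym : ∀ x y, r x y = r y x)
    (hr : ∀ p ∈ P, r p.1 p.2.1 < r p.1 p.2.2 ∧ r p.2.1 p.2.2 < r p.1 p.2.2)
    (hor : ∀ p ∈ P, ∀ q ∈ P, ¬ (p.1 = q.2.2 ∧ p.2.2 = q.1))
    {p q : ι × ι × ι} (hp : p ∈ P) (hq : q ∈ P)
    (h1 : v p.1 ∈ ({v q.1, v q.2.1, v q.2.2} : Finset (Fin n)))
    (h2 : v p.2.2 ∈ ({v q.1, v q.2.1, v q.2.2} : Finset (Fin n))) :
    (p.1 = q.1 ∧ p.2.2 = q.2.2) ∨ r p.1 p.2.2 < r q.1 q.2.2 := by
  obtain ⟨⟨k1, k2, k3⟩, k4, k5, k6⟩ := hP p hp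
  obtain ⟨⟨l1, l2, l3⟩, l4, l5, l6⟩ := hP q hq
  simp only [mem_insert, mem_singleton] at h1 h2
  have m1 : p.1 = q.1 ∨ p.1 = q.2.1 ∨ p.1 = q.2.2 := by
    rcases h1 with h | h | h
    · exact Or.inl (hv _ k1 _ l1 h)
    · exact Or.inr (Or.inl (hv _ k1 _ l2 h))
    · exact Or.inr (Or.inr (hv _ k1 _ l3 h))
  have m2 : p.2.2 = q.1 ∨ p.2.2 = q.2.1 ∨ p.2.2 = q.2.2 := by
    rcases h2 with h | h | h
    · exact Or.inl (hv _ k3 _ l1 h)
    · exact Or.inr (Or.inl (hv _ k3 _ l2 h))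
    · exact Or.inr (Or.inr (hv _ k3 _ l3 h))
  obtain ⟨r1, r2⟩ := hr _ hq
  have r3 := hsym q.2.1 q.1
  have r4 := hsym q.2.2 q.2.1
  rcases m1 with m1 | m1 | m1 <;> rcases m2 with m2 | m2 | m2
  · exact absurd (m1.trans m2.symm) k6
  · right
    rw [m1, m2]
    omega
  · exact Or.inl ⟨m1, m2⟩
  · right
    rw [m1, m2]
    omega
  · exact absurd (m1.trans m2.symm) k6
  · right
    rw [m1, m2]
    omega
  · exact absurd ⟨m1, m2⟩ (hor _ hp _ hq)
  · right
    rw [m1, m2]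
    omega
  · exact absurd (m1.trans m2.symm) k6

/-- **The rank bound** with a family `E` of triples. -/
theorem rank_ge3 {n s : ℕ} (E G : Finset (Finset (Fin n))) {C : Type} [Fintype C]
    (M : Matrix {e : Finset (Fin n) // e ∈ G} C (KK n s)) (col : Fin s → Fin n × Fin n → C)
    (hM : ∀ (e : {e : Finset (Fin n) // e ∈ G}) (i : Fin s) (q : Fin n × Fin n), q.1 < q.2 →
      M e (col i q) = ent e.1 i q)
    {ι : Type} [DecidableEq ι] (A : Finset ι) (v : ι → Fin n)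
    (hv : ∀ x ∈ A, ∀ y ∈ A, v x = v y → x = y)
    (P : Finset (ι × ι × ι)) (hP : ∀ p ∈ P, (p.1 ∈ A ∧ p.2.1 ∈ A ∧ p.2.2 ∈ A) ∧
      (p.1 ≠ p.2.1 ∧ p.2.2 ≠ p.2.1 ∧ p.1 ≠ p.2.2))
    (r : ι → ι → ℕ) (hsym : ∀ x y, r x y = r y x)
    (hr : ∀ p ∈ P, r p.1 p.2.1 < r p.1 p.2.2 ∧ r p.2.1 p.2.2 < r p.1 p.2.2)
    (hor : ∀ p ∈ P, ∀ q ∈ P, ¬ (p.1 = q.2.2 ∧ p.2.2 = q.1))
    (hE : ∀ p ∈ P, ({v p.1, v p.2.1, v p.2.2} : Finset (Fin n)) ∈ E)
    (hs : ∀ u t : ι, (P.filter fun p => p.1 = u ∧ p.2.2 = t).card ≤ s) :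
    P.card ≤ M.rank + (E \ G).card := by
  classical
  set Q := P.filter fun p => ({v p.1, v p.2.1, v p.2.2} : Finset (Fin n)) ∈ G with hQ
  have hQP : ∀ p ∈ Q, p ∈ P := fun p hp => (mem_filter.1 hp).1
  have h1 := rank_ge2 G M col hM A v hv Q (fun p hp => hP p (hQP p hp)) r hsym
    (fun p hp => hr p (hQP p hp)) (fun p hp q hq => hor p (hQP p hp) q (hQP q hq))
    (fun p hp => (mem_filter.1 hp).2) (fun u t =>
      (card_le_card (filter_subset_filter _ (filter_subset _ _))).trans (hs u t))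
  have h2 : (P.filter fun p => ¬ ({v p.1, v p.2.1, v p.2.2} : Finset (Fin n)) ∈ G).card ≤
      (E \ G).card := by
    apply card_le_card_of_injOn fun p => ({v p.1, v p.2.1, v p.2.2} : Finset (Fin n))
    · intro p hp
      rw [mem_coe, mem_filter] at hp
      rw [mem_coe, mem_sdiff]
      exact ⟨hE p hp.1, hp.2⟩
    · intro p hp q hq hpq
      rw [mem_coe, mem_filter] at hp hq
      simp only at hpq
      have m1 : v p.1 ∈ ({v q.1, v q.2.1, v q.2.2} : Finset (Fin n)) := by rw [← hpq]; simp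
      have m2 : v p.2.2 ∈ ({v q.1, v q.2.1, v q.2.2} : Finset (Fin n)) := by rw [← hpq]; simp
      have m3 : v q.1 ∈ ({v p.1, v p.2.1, v p.2.2} : Finset (Fin n)) := by rw [hpq]; simp
      have m4 : v q.2.2 ∈ ({v p.1, v p.2.1, v p.2.2} : Finset (Fin n)) := by rw [hpq]; simp
      have m5 : v p.2.1 ∈ ({v q.1, v q.2.1, v q.2.2} : Finset (Fin n)) := by rw [← hpq]; simp
      have hpv : p.1 = q.1 ∧ p.2.2 = q.2.2 := by
        rcases pivot_lt A v hv P hP r hsym hr hor hp.1 hq.1 m1 m2 with h | h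
        · exact h
        · rcases pivot_lt A v hv P hP r hsym hr hor hq.1 hp.1 m3 m4 with h' | h'
          · exact ⟨h'.1.symm, h'.2.symm⟩
          · omega
      obtain ⟨⟨k1, k2, k3⟩, k4, k5, k6⟩ := hP p hp.1
      obtain ⟨⟨l1, l2, l3⟩, l4, l5, l6⟩ := hP q hq.1
      simp only [mem_insert, mem_singleton] at m5
      have h3 : p.2.1 = q.2.1 := by
        rcases m5 with h | h | h
        · exact absurd (hpv.1.trans (hv _ k2 _ l1 h).symm) k4
        · exact hv _ k2 _ l2 h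
        · exact absurd (hpv.2.trans (hv _ k2 _ l3 h).symm) k5
      exact Prod.ext hpv.1 (Prod.ext h3 hpv.2)
  have h3 := card_filter_add_card_filter_not (s := P)
    (fun p => ({v p.1, v p.2.1, v p.2.2} : Finset (Fin n)) ∈ G)
  rw [← hQ] at h3
  omega

/-- **The rank bound for all 3-graphs.** -/
theorem rank_pairs {n s : ℕ} (G : Finset (Finset (Fin n))) {C : Type} [Fintype C]
    (M : Matrix {e : Finset (Fin n) // e ∈ G} C (KK n s)) (col : Fin s → Fin n × Fin n → C)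
    (hM : ∀ (e : {e : Finset (Fin n) // e ∈ G}) (i : Fin s) (q : Fin n × Fin n), q.1 < q.2 →
      M e (col i q) = ent e.1 i q)
    (r : Fin n → Fin n → ℕ) (hsym : ∀ x y, r x y = r y x) (W : Fin n → Fin n → Finset (Fin n))
    (hW : ∀ x y, ∀ w ∈ W x y, w ≠ x ∧ w ≠ y ∧ ({x, w, y} : Finset (Fin n)) ∈ G ∧
      r x w < r x y ∧ r w y < r x y) :
    ∑ x : Fin n, ∑ y ∈ univ.filter (fun y => x < y), min s (W x y).card ≤ M.rank := by
  classical
  have hB : ∀ x y : Fin n, ∃ B : Finset (Fin n), B ⊆ W x y ∧ B.card = min s (W x y).card :=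
    fun x y => exists_subset_card_eq (min_le_right _ _)
  choose B h1 h2 using hB
  let Q : Finset (Σ _ : Fin n, Σ _ : Fin n, Fin n) :=
    univ.sigma fun x => (univ.filter fun y => x < y).sigma fun y => B x y
  let P : Finset (Fin n × Fin n × Fin n) := Q.image fun p => (p.1, p.2.2, p.2.1)
  have hQ : P.card = ∑ x : Fin n, ∑ y ∈ univ.filter (fun y => x < y), min s (W x y).card := by
    have h3 : P.card = Q.card := by
      apply card_image_of_injective
      rintro ⟨t, u, b⟩ ⟨t', u', b'⟩ h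
      simp only [Prod.mk.injEq] at h
      obtain ⟨rfl, rfl, rfl⟩ := h
      rfl
    rw [h3]
    simp only [Q, card_sigma, h2]
  have hPm : ∀ p ∈ P, p.1 < p.2.2 ∧ p.2.1 ∈ B p.1 p.2.2 := by
    intro p hp
    obtain ⟨⟨x, y, b⟩, hx, rfl⟩ := mem_image.1 hp
    simp only [Q, mem_sigma, mem_filter, mem_univ, true_and] at hx
    exact hx
  rw [← hQ]
  refine rank_ge2 G M col hM (univ : Finset (Fin n)) (fun x => x) (fun x _ y _ h => h) P ?_ r
    hsym ?_ ?_ ?_ ?_
  · intro p hp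
    obtain ⟨p1, p2⟩ := hPm p hp
    obtain ⟨w1, w2, w3, w4, w5⟩ := hW _ _ _ (h1 _ _ p2)
    exact ⟨⟨mem_univ _, mem_univ _, mem_univ _⟩, w1.symm, w2.symm, p1.ne⟩
  · intro p hp
    obtain ⟨p1, p2⟩ := hPm p hp
    obtain ⟨w1, w2, w3, w4, w5⟩ := hW _ _ _ (h1 _ _ p2)
    exact ⟨w4, w5⟩
  · rintro p hp q hq ⟨e1, e2⟩
    have p1 := (hPm p hp).1
    have q1 := (hPm q hq).1
    rw [e1, e2] at p1
    exact lt_asymm p1 q1
  · intro p hp
    obtain ⟨p1, p2⟩ := hPm p hp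
    obtain ⟨w1, w2, w3, w4, w5⟩ := hW _ _ _ (h1 _ _ p2)
    exact w3
  · intro u t
    have h3 : P.filter (fun p => p.1 = u ∧ p.2.2 = t) ⊆ (B u t).image fun b => (u, b, t) := by
      rintro ⟨u', b, t'⟩ hp
      rw [mem_filter] at hp
      obtain ⟨hp, hp'⟩ := hp
      simp only at hp'
      obtain ⟨rfl, rfl⟩ := hp'
      exact mem_image.2 ⟨b, (hPm _ hp).2, rfl⟩
    refine (card_le_card h3).trans (card_image_le.trans ?_)
    rw [h2]
    exact min_le_left _ _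

end Pool.Agent.TH173.KR
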