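import Pool.Agent.TH173.KR.Alg2
import Pool.Agent.TH173.KR.Comb
import Pool.Agent.TH173.TO.Main62

/-!
# Kalai's rank bound from two families of lists
-/

set_option autoImplicit false
open Finset

namespace Pool.Agent.TH173.KR
open Pool.Agent.TH173.TO

/-- the first elements of a list, counted with multiplicity at most `s` -/
theorem sel_sum (s : ℕ) (o : ℕ → ℕ) : ∀ (k : ℕ) (L : Finset ℕ), L.card = k →
    (∀ x ∈ L, ∀ y ∈ L, o x = o y → x = y) →
    ∑ j ∈ Icc 1 s, (k - j) ≤ ∑ y ∈ L, min s (L.filter fun z => o z < o y).card := by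
  intro k
  induction k with
  | zero => intro L _ _; simp
  | succ k ih =>
    intro L hL ho
    have hne : L.Nonempty := by rw [← card_pos]; omega
    obtain ⟨m, hm, hmax⟩ := L.exists_max_image o hne
    have h1 := ih (L.erase m) (by rw [card_erase_of_mem hm]; omega)
      (fun x hx y hy => ho x (mem_of_mem_erase hx) y (mem_of_mem_erase hy))
    have h2 : ∑ y ∈ L.erase m, min s (L.filter fun z => o z < o y).card =
        ∑ y ∈ L.erase m, min s ((L.erase m).filter fun z => o z < o y).card := by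
      apply sum_congr rfl
      intro y hy
      congr 2
      ext z
      simp only [mem_filter, mem_erase]
      constructor
      · rintro ⟨h3, h4⟩
        refine ⟨⟨?_, h3⟩, h4⟩
        rintro rfl
        have := hmax y (mem_of_mem_erase hy)
        omega
      · rintro ⟨⟨_, h3⟩, h4⟩
        exact ⟨h3, h4⟩
    have h3 : (L.filter fun z => o z < o m) = L.erase m := by
      ext z
      simp only [mem_filter, mem_erase]
      constructor
      · rintro ⟨h3, h4⟩
        refine ⟨?_, h3⟩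
        rintro rfl
        omega
      · rintro ⟨h3, h4⟩
        refine ⟨h4, lt_of_le_of_ne (hmax z h4) ?_⟩
        intro h5
        exact h3 (ho z h4 m hm h5)
    rw [← sum_erase_add L _ hm, h2, h3, card_erase_of_mem hm, hL]
    have h4 : ∑ j ∈ Icc 1 s, (k + 1 - j) = ∑ j ∈ Icc 1 s, (k - j) + min s k := by
      have : ∀ j ∈ Icc 1 s, k + 1 - j = (k - j) + if j ≤ k then 1 else 0 := by
        intro j _
        split_ifs <;> omega
      rw [sum_congr rfl this, sum_add_distrib, ← card_filter]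
      congr 1
      have : (Icc 1 s).filter (fun j => j ≤ k) = Icc 1 (min s k) := by
        ext j
        simp only [mem_filter, mem_Icc]
        omega
      rw [this, Nat.card_Icc]
      omega
    rw [h4]
    have : k + 1 - 1 = k := by omega
    rw [this]
    omega

/-- a selection of at most `s` earlier elements for every element of the list -/
theorem sel (s : ℕ) (o : ℕ → ℕ) (L : Finset ℕ) (ho : ∀ x ∈ L, ∀ y ∈ L, o x = o y → x = y) :
    ∃ B : ℕ → Finset ℕ, (∀ y, ∀ z ∈ B y, z ∈ L ∧ o z < o y) ∧ (∀ y, (B y).card ≤ s) ∧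
      ∑ j ∈ Icc 1 s, (L.card - j) ≤ ∑ y ∈ L, (B y).card := by
  have hB : ∀ y : ℕ, ∃ B : Finset ℕ, B ⊆ L.filter (fun z => o z < o y) ∧
      B.card = min s (L.filter fun z => o z < o y).card := fun y =>
    exists_subset_card_eq (min_le_right _ _)
  choose B h1 h2 using hB
  refine ⟨B, fun y z hz => mem_filter.1 (h1 y hz), fun y => ?_, ?_⟩
  · rw [h2]
    exact min_le_left _ _
  · simp only [h2]
    exact sel_sum s o L.card L rfl ho

/-- **Kalai's bound from two families of lists.** -/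
theorem kalai_lists {n s : ℕ} (hsn : 3 * s ≤ n) (E G : Finset (Finset (Fin n)))
    {C' : Type} [Fintype C']
    (M : Matrix {e : Finset (Fin n) // e ∈ G} C' (KK n s)) (col : Fin s → Fin n × Fin n → C')
    (hM : ∀ (e : {e : Finset (Fin n) // e ∈ G}) (i : Fin s) (q : Fin n × Fin n), q.1 < q.2 →
      M e (col i q) = ent e.1 i q)
    (v : ℕ → Fin n) (hv : ∀ x ∈ range n, ∀ y ∈ range n, v x = v y → x = y)
    (g : ℕ → ℕ → Bool) (L : ℕ → Finset ℕ) (o : ℕ → ℕ)
    (ho : ∀ x ∈ range n, ∀ y ∈ range n, o x = o y → x = y)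
    (hL : ∀ x ∈ range n, ∀ z ∈ L x, z ∈ range n ∧ C g x z ∧ o x < o z)
    (r : ℕ → ℕ → ℕ) (hsym : ∀ x y, r x y = r y x)
    (hr1 : ∀ c ∈ range n, ∀ a ∈ dl g (range n) c, ∀ b ∈ dl g (range n) c, a < b →
      r a b < r a c ∧ r b c < r a c)
    (hr2 : ∀ x ∈ range n, ∀ y ∈ L x, ∀ z ∈ L x, o y < o z → r x y < r x z ∧ r y z < r x z)
    (hG1 : ∀ c ∈ range n, ∀ a ∈ dl g (range n) c, ∀ b ∈ dl g (range n) c, a < b →
      ({v a, v b, v c} : Finset (Fin n)) ∈ E)
    (hG2 : ∀ x ∈ range n, ∀ y ∈ L x, ∀ z ∈ L x, o y < o z →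
      ({v x, v y, v z} : Finset (Fin n)) ∈ E)
    (hsum : ∑ x ∈ range n, ((dl g (range n) x).card + (L x).card) = n.choose 2)
    (hdef : ∀ i, 1 ≤ i → i ≤ s →
      3 * (i + 1).choose 2 ≤ ∑ x ∈ range n, ((i - (dl g (range n) x).card) + (i - (L x).card))) :
    (∑ i ∈ Icc 1 s, (((n - 2 * i).choose 2 : ℤ) - (i.choose 2 : ℤ))) ≤
      (M.rank : ℤ) + ((E \ G).card : ℤ) := by
  classical
  -- the selections
  have h1 : ∀ c : ℕ, ∃ B : ℕ → Finset ℕ, (∀ a ∈ dl g (range n) c, ∀ b ∈ B a,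
      b ∈ dl g (range n) c ∧ a < b) ∧ (∀ a, (B a).card ≤ s) ∧
      ∑ j ∈ Icc 1 s, ((dl g (range n) c).card - j) ≤ ∑ a ∈ dl g (range n) c, (B a).card := by
    intro c
    have hlt : ∀ x ∈ dl g (range n) c, x < n := fun x hx => mem_range.1 (mem_dl.1 hx).1
    obtain ⟨B, b1, b2, b3⟩ := sel s (fun x => n - x) (dl g (range n) c) (by
      intro x hx y hy h
      have := hlt x hx
      have := hlt y hy
      omega)
    refine ⟨B, ?_, b2, b3⟩
    intro a ha b hb
    obtain ⟨h2, h3⟩ := b1 a b hb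
    have := hlt a ha
    exact ⟨h2, by omega⟩
  choose B1 b11 b12 b13 using h1
  have h2 : ∀ x : ℕ, ∃ B : ℕ → Finset ℕ, x ∈ range n → ((∀ z, ∀ y ∈ B z, y ∈ L x ∧ o y < o z) ∧
      (∀ z, (B z).card ≤ s) ∧ ∑ j ∈ Icc 1 s, ((L x).card - j) ≤ ∑ z ∈ L x, (B z).card) := by
    intro x
    by_cases hx : x ∈ range n
    · obtain ⟨B, b1, b2, b3⟩ := sel s o (L x) (by
        intro y hy z hz h
        exact ho y (hL x hx y hy).1 z (hL x hx z hz).1 h)
      exact ⟨B, fun _ => ⟨b1, b2, b3⟩⟩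
    · exact ⟨fun _ => ∅, fun h => absurd h hx⟩
  choose B2 b2 using h2
  -- the rows
  let Q1 : Finset (Σ _ : ℕ, Σ _ : ℕ, ℕ) := (range n).sigma fun c =>
    (dl g (range n) c).sigma fun a => B1 c a
  let Q2 : Finset (Σ _ : ℕ, Σ _ : ℕ, ℕ) := (range n).sigma fun x => (L x).sigma fun z => B2 x z
  let P1 : Finset (ℕ × ℕ × ℕ) := Q1.image fun x => (x.2.1, x.2.2, x.1)
  let P2 : Finset (ℕ × ℕ × ℕ) := Q2.image fun x => (x.1, x.2.2, x.2.1)
  have hQ1 : P1.card = ∑ c ∈ range n, ∑ a ∈ dl g (range n) c, (B1 c a).card := by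
    have h1 : P1.card = Q1.card := by
      apply card_image_of_injective
      rintro ⟨t, u, b⟩ ⟨t', u', b'⟩ h
      simp only [Prod.mk.injEq] at h
      obtain ⟨rfl, rfl, rfl⟩ := h
      rfl
    rw [h1]
    simp only [Q1, card_sigma]
  have hQ2 : P2.card = ∑ x ∈ range n, ∑ z ∈ L x, (B2 x z).card := by
    have h1 : P2.card = Q2.card := by
      apply card_image_of_injective
      rintro ⟨t, u, b⟩ ⟨t', u', b'⟩ h
      simp only [Prod.mk.injEq] at h
      obtain ⟨rfl, rfl, rfl⟩ := h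
      rfl
    rw [h1]
    simp only [Q2, card_sigma]
  have hP1 : ∀ p ∈ P1, p.2.2 ∈ range n ∧ p.1 ∈ dl g (range n) p.2.2 ∧ p.2.1 ∈ B1 p.2.2 p.1 ∧
      p.2.1 ∈ dl g (range n) p.2.2 ∧ p.1 < p.2.1 := by
    intro p hp
    obtain ⟨⟨c, a, b⟩, hx, rfl⟩ := mem_image.1 hp
    simp only [Q1, mem_sigma] at hx
    have := b11 c a hx.2.1 b hx.2.2
    exact ⟨hx.1, hx.2.1, hx.2.2, this.1, this.2⟩
  have hP2 : ∀ p ∈ P2, p.1 ∈ range n ∧ p.2.2 ∈ L p.1 ∧ p.2.1 ∈ B2 p.1 p.2.2 ∧
      p.2.1 ∈ L p.1 ∧ o p.2.1 < o p.2.2 := by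
    intro p hp
    obtain ⟨⟨x, z, y⟩, hx, rfl⟩ := mem_image.1 hp
    simp only [Q2, mem_sigma] at hx
    have := (b2 x hx.1).1 z y hx.2.2
    exact ⟨hx.1, hx.2.1, hx.2.2, this.1, this.2⟩
  have hG1' : ∀ p ∈ P1, p.1 < p.2.2 ∧ g p.1 p.2.2 = true := by
    intro p hp
    have := (mem_dl.1 (hP1 p hp).2.1).2
    exact this
  have hC2 : ∀ p ∈ P2, C g p.1 p.2.2 ∧ o p.1 < o p.2.2 := by
    intro p hp
    have h3 := hP2 p hp
    exact (hL _ h3.1 _ h3.2.1).2
  have hexcl : ∀ p ∈ P1, ∀ q ∈ P2, ¬ (p.1 = q.1 ∧ p.2.2 = q.2.2) ∧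
      ¬ (p.1 = q.2.2 ∧ p.2.2 = q.1) := by
    intro p hp q hq
    have h3 := hG1' p hp
    have h4 := (hC2 q hq).1
    constructor
    · rintro ⟨e1, e2⟩
      rw [← e1, ← e2, C_of_lt h3.1, h3.2] at h4
      simp at h4
    · rintro ⟨e1, e2⟩
      have h5 := h4.symm
      rw [← e1, ← e2, C_of_lt h3.1, h3.2] at h5
      simp at h5
  have hdisj : Disjoint P1 P2 := by
    rw [disjoint_left]
    intro p hp hq
    exact (hexcl p hp p hq).1 ⟨rfl, rfl⟩
  have hrank := rank_ge3 (s := s) E G M col hM (range n) v hv (P1 ∪ P2) ?_ r hsym ?_ ?_ ?_ ?_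
  · rw [card_union_of_disjoint hdisj, hQ1, hQ2] at hrank
    have h3 : ∑ i ∈ Icc 1 s, (((n - 2 * i).choose 2 : ℤ) - (i.choose 2 : ℤ)) ≤
        ((∑ i ∈ Icc 1 s, ∑ x ∈ range n,
          (((dl g (range n) x).card - i) + ((L x).card - i)) : ℕ) : ℤ) := by
      rw [Nat.cast_sum]
      apply sum_le_sum
      intro i hi
      rw [mem_Icc] at hi
      have hi3 : 3 * i ≤ n := by omega
      have h3 := hdef i hi.1 hi.2
      have h5 : (∑ x ∈ range n, (((dl g (range n) x).card - i) + ((L x).card - i))) +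
          2 * i * n = n.choose 2 +
          ∑ x ∈ range n, ((i - (dl g (range n) x).card) + (i - (L x).card)) := by
        rw [← hsum]
        have : 2 * i * n = ∑ v ∈ range n, 2 * i := by
          rw [sum_const, card_range, smul_eq_mul]
          ring
        rw [this, ← sum_add_distrib, ← sum_add_distrib]
        apply sum_congr rfl
        intro v _
        omega
      have h6 := arith n i hi3
      zify at h3 h5
      push_cast at h3 h5 ⊢
      linarith
    refine h3.trans ?_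
    norm_cast
    refine le_trans ?_ hrank
    rw [sum_comm, ← sum_add_distrib]
    apply sum_le_sum
    intro x hx
    rw [sum_add_distrib]
    exact Nat.add_le_add (b13 x) (b2 x hx).2.2
  · intro p hp
    rcases mem_union.1 hp with hp | hp
    · obtain ⟨q1, q2, q3, q4, q5⟩ := hP1 p hp
      rw [mem_dl] at q2 q4
      exact ⟨⟨q2.1, q4.1, q1⟩, q5.ne, q4.2.1.ne', q2.2.1.ne⟩
    · obtain ⟨q1, q2, q3, q4, q5⟩ := hP2 p hp
      have q6 := hL _ q1 _ q2
      have q7 := hL _ q1 _ q4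
      refine ⟨⟨q1, q7.1, q6.1⟩, q7.2.1.ne, ?_, q6.2.1.ne⟩
      intro h
      rw [h] at q5
      exact lt_irrefl _ q5
  · intro p hp
    rcases mem_union.1 hp with hp | hp
    · obtain ⟨q1, q2, q3, q4, q5⟩ := hP1 p hp
      exact hr1 _ q1 _ q2 _ q4 q5
    · obtain ⟨q1, q2, q3, q4, q5⟩ := hP2 p hp
      exact hr2 _ q1 _ q4 _ q2 q5
  · intro p hp q hq
    rcases mem_union.1 hp with hp | hp <;> rcases mem_union.1 hq with hq | hq
    · rintro ⟨e1, e2⟩
      have h3 := (hG1' p hp).1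
      have h4 := (hG1' q hq).1
      omega
    · exact (hexcl p hp q hq).2
    · rintro ⟨e1, e2⟩
      exact (hexcl q hq p hp).2 ⟨e2.symm, e1.symm⟩
    · rintro ⟨e1, e2⟩
      have h3 := (hC2 p hp).2
      have h4 := (hC2 q hq).2
      rw [e1, e2] at h3
      omega
  · intro p hp
    rcases mem_union.1 hp with hp | hp
    · obtain ⟨q1, q2, q3, q4, q5⟩ := hP1 p hp
      exact hG1 _ q1 _ q2 _ q4 q5
    · obtain ⟨q1, q2, q3, q4, q5⟩ := hP2 p hp
      exact hG2 _ q1 _ q4 _ q2 q5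
  · intro u t
    rw [filter_union]
    by_cases hE : (P1.filter fun p => p.1 = u ∧ p.2.2 = t) = ∅
    · rw [hE, empty_union]
      by_cases hu : u ∈ range n
      · have h3 : P2.filter (fun p => p.1 = u ∧ p.2.2 = t) ⊆ (B2 u t).image fun b => (u, b, t) := by
          rintro ⟨u', b, t'⟩ hp
          rw [mem_filter] at hp
          obtain ⟨hp, hp'⟩ := hp
          simp only at hp'
          obtain ⟨rfl, rfl⟩ := hp'
          exact mem_image.2 ⟨b, (hP2 _ hp).2.2.1, rfl⟩
        exact (card_le_card h3).trans (card_image_le.trans ((b2 u hu).2.1 t))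
      · have h3 : P2.filter (fun p => p.1 = u ∧ p.2.2 = t) = ∅ := by
          rw [eq_empty_iff_forall_notMem]
          intro p hp
          rw [mem_filter] at hp
          apply hu
          rw [← hp.2.1]
          exact (hP2 _ hp.1).1
        rw [h3, card_empty]
        exact Nat.zero_le _
    · obtain ⟨q, hq⟩ := nonempty_iff_ne_empty.2 hE
      rw [mem_filter] at hq
      have h3 : P2.filter (fun p => p.1 = u ∧ p.2.2 = t) = ∅ := by
        rw [eq_empty_iff_forall_notMem]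
        intro p hp
        rw [mem_filter] at hp
        apply (hexcl q hq.1 p hp.1).1
        rw [hq.2.1, hq.2.2, hp.2.1, hp.2.2]
        exact ⟨rfl, rfl⟩
      rw [h3, union_empty]
      have h4 : P1.filter (fun p => p.1 = u ∧ p.2.2 = t) ⊆ (B1 t u).image fun b => (u, b, t) := by
        rintro ⟨u', b, t'⟩ hp
        rw [mem_filter] at hp
        obtain ⟨hp, hp'⟩ := hp
        simp only at hp'
        obtain ⟨rfl, rfl⟩ := hp'
        exact mem_image.2 ⟨b, (hP1 _ hp).2.2.1, rfl⟩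
      exact (card_le_card h4).trans (card_image_le.trans (b12 t u))

end Pool.Agent.TH173.KR
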