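import Pool.Agent.TH173.KR.Comb
import Pool.Agent.TH173.KR.Alg
import Pool.Agent.TH173.OE.Sharp

/-!
# Kalai's rank bound for ordered families
-/

set_option autoImplicit false
open Finset

namespace Pool.Agent.TH173.KR
open Pool.Agent.TH173.OE

/-- the pair `{a, c}` is closed in the order given by `σ` -/
def Cl {n : ℕ} (σ : Equiv.Perm (Fin n)) (G : Finset (Finset (Fin n))) (a c : Fin n) : Prop :=
  ∀ d : Fin n, σ c < σ d → ({a, c, d} : Finset (Fin n)) ∈ G

/-- active triples -/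
def Act {n : ℕ} (σ : Equiv.Perm (Fin n)) (G : Finset (Finset (Fin n))) (t : Finset (Fin n)) :
    Prop :=
  ∃ a b c : Fin n, σ a < σ b ∧ σ b < σ c ∧ t = {a, b, c} ∧ t ∉ G ∧ ¬ Cl σ G a c ∧ ¬ Cl σ G b c

open scoped Classical in
/-- the set of active triples -/
noncomputable def acts {n : ℕ} (σ : Equiv.Perm (Fin n)) (G : Finset (Finset (Fin n))) :
    Finset (Finset (Fin n)) :=
  univ.filter (Act σ G)

theorem perm_inj {n : ℕ} (σ : Equiv.Perm (Fin n)) {a b c a' b' c' : Fin n} (h1 : σ a < σ b)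
    (h2 : σ b < σ c) (h1' : σ a' < σ b') (h2' : σ b' < σ c')
    (h : ({a, b, c} : Finset (Fin n)) = {a', b', c'}) : a = a' ∧ b = b' ∧ c = c' := by
  have h3 := congrArg (fun t : Finset (Fin n) => t.image σ) h
  simp only [image_insert, image_singleton] at h3
  obtain ⟨e1, e2, e3⟩ := sorted_inj h1 h2 h1' h2' h3
  exact ⟨σ.injective e1, σ.injective e2, σ.injective e3⟩

/-- the vertex at position `x` -/
noncomputable def vx {n : ℕ} (hn : 0 < n) (σ : Equiv.Perm (Fin n)) (x : ℕ) : Fin n :=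
  if h : x < n then σ.symm ⟨x, h⟩ else ⟨0, hn⟩

theorem sig_vx {n : ℕ} (hn : 0 < n) (σ : Equiv.Perm (Fin n)) {x : ℕ} (hx : x < n) :
    σ (vx hn σ x) = ⟨x, hx⟩ := by
  unfold vx
  rw [dif_pos hx, Equiv.apply_symm_apply]

theorem vx_inj {n : ℕ} (hn : 0 < n) (σ : Equiv.Perm (Fin n)) {x y : ℕ} (hx : x < n) (hy : y < n)
    (h : vx hn σ x = vx hn σ y) : x = y := by
  have := congrArg σ h
  rw [sig_vx hn σ hx, sig_vx hn σ hy, Fin.mk.injEq] at this
  exact this

theorem vx_lt {n : ℕ} (hn : 0 < n) (σ : Equiv.Perm (Fin n)) {x y : ℕ} (hxy : x < y) (hy : y < n) :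
    σ (vx hn σ x) < σ (vx hn σ y) := by
  rw [sig_vx hn σ (hxy.trans hy), sig_vx hn σ hy, Fin.mk_lt_mk]
  exact hxy

/-- **Kalai's bound up to the number of active triples.** -/
theorem kalai {n s : ℕ} (hs1 : 1 ≤ s) (hsn : s ≤ n / 3) (G : Finset (Finset (Fin n)))
    (σ : Equiv.Perm (Fin n)) {C : Type} [Fintype C]
    (M : Matrix {e : Finset (Fin n) // e ∈ G} C (KK n s)) (col : Fin s → Fin n × Fin n → C)
    (hM : ∀ (e : {e : Finset (Fin n) // e ∈ G}) (i : Fin s) (q : Fin n × Fin n), q.1 < q.2 →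
      M e (col i q) = ent e.1 i q) :
    (∑ i ∈ Icc 1 s, (((n - 2 * i).choose 2 : ℤ) - (i.choose 2 : ℤ))) ≤
      (M.rank : ℤ) + ((acts σ G).card : ℤ) := by
  classical
  have hn : 0 < n := by omega
  set v : ℕ → Fin n := vx hn σ with hv
  have hvi : ∀ x < n, ∀ y < n, v x = v y → x = y := fun x hx y hy h => vx_inj hn σ hx hy h
  set g : ℕ → ℕ → Bool := fun x y => decide (¬ Cl σ G (v x) (v y)) with hg
  have hg' : ∀ x y, g x y = true ↔ ¬ Cl σ G (v x) (v y) := by
    intro x y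
    simp [hg]
  -- middles
  set S : ℕ → ℕ → Finset ℕ := fun u t => (Ico (u + 1) t).filter
    fun b => ({v u, v b, v t} : Finset (Fin n)) ∈ G with hS
  set T : ℕ → ℕ → Finset ℕ := fun u t => (Ico (u + 1) t).filter
    fun b => Act σ G ({v u, v b, v t} : Finset (Fin n)) with hT
  have hB : ∀ u t : ℕ, ∃ B : Finset ℕ, B ⊆ S u t ∧ B.card = min s (S u t).card := fun u t =>
    exists_subset_card_eq (min_le_right _ _)
  choose B hBS hBc using hB
  have hdg : ∀ t < n, ∀ u < t, min s (dg g u t) ≤ (B u t).card + (T u t).card := by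
    intro t ht u hu
    have h1 : dg g u t ≤ (S u t).card + (T u t).card := by
      refine le_trans ?_ (card_union_le _ _)
      unfold dg
      apply card_le_card
      intro b hb
      rw [mem_filter] at hb
      obtain ⟨hb1, hb2⟩ := hb
      have hb3 := mem_Ico.1 hb1
      rw [mem_union, hS, hT]
      simp only [mem_filter]
      rcases hb2 with h | ⟨h2, h3⟩
      · rw [hg', not_not] at h
        left
        exact ⟨hb1, h (v t) (vx_lt hn σ hb3.2 ht)⟩
      · rw [hg'] at h2 h3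
        by_cases h4 : ({v u, v b, v t} : Finset (Fin n)) ∈ G
        · exact Or.inl ⟨hb1, h4⟩
        · exact Or.inr ⟨hb1, v u, v b, v t, vx_lt hn σ (by omega) (by omega),
            vx_lt hn σ hb3.2 ht, rfl, h4, h2, h3⟩
    rw [hBc]
    omega
  -- the rows
  let Q : Finset (Σ _ : ℕ, Σ _ : ℕ, ℕ) := (range n).sigma fun t => (range t).sigma fun u => B u t
  let P : Finset (ℕ × ℕ × ℕ) := Q.image fun x => (x.2.1, x.2.2, x.1)
  have hQP : P.card = ∑ t ∈ range n, ∑ u ∈ range t, (B u t).card := by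
    have h1 : P.card = Q.card := by
      apply card_image_of_injective
      rintro ⟨t, u, b⟩ ⟨t', u', b'⟩ h
      simp only [Prod.mk.injEq] at h
      obtain ⟨rfl, rfl, rfl⟩ := h
      rfl
    rw [h1]
    simp only [Q, card_sigma]
  have hPm : ∀ p ∈ P, p.1 < p.2.2 ∧ p.2.2 < n ∧ p.2.1 ∈ B p.1 p.2.2 := by
    intro p hp
    obtain ⟨⟨t, u, b⟩, hx, rfl⟩ := mem_image.1 hp
    simp only [Q, mem_sigma, mem_range] at hx
    exact ⟨hx.2.1, hx.1, hx.2.2⟩
  have hP : ∀ p ∈ P, p.1 < p.2.1 ∧ p.2.1 < p.2.2 ∧ p.2.2 < n := by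
    intro p hp
    obtain ⟨h1, h2, h3⟩ := hPm p hp
    have h4 := hBS _ _ h3
    rw [hS] at h4
    simp only [mem_filter, mem_Ico] at h4
    omega
  have hPG : ∀ p ∈ P, ({v p.1, v p.2.1, v p.2.2} : Finset (Fin n)) ∈ G := by
    intro p hp
    obtain ⟨h1, h2, h3⟩ := hPm p hp
    have h4 := hBS _ _ h3
    rw [hS] at h4
    simp only [mem_filter, mem_Ico] at h4
    exact h4.2
  have hPs : ∀ u t : ℕ, (P.filter fun p => p.1 = u ∧ p.2.2 = t).card ≤ s := by
    intro u t
    have h1 : P.filter (fun p => p.1 = u ∧ p.2.2 = t) ⊆ (B u t).image fun b => (u, b, t) := by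
      rintro ⟨u', b, t'⟩ hp
      rw [mem_filter] at hp
      obtain ⟨hp, hp'⟩ := hp
      simp only at hp'
      obtain ⟨rfl, rfl⟩ := hp'
      exact mem_image.2 ⟨b, (hPm _ hp).2.2, rfl⟩
    refine (card_le_card h1).trans (card_image_le.trans ?_)
    rw [hBc]
    exact min_le_left _ _
  have hrank := rank_ge G M col hM v hvi P hP hPG hPs
  -- the active triples
  have hact : (∑ t ∈ range n, ∑ u ∈ range t, (T u t).card) ≤ (acts σ G).card := by
    let R : Finset (Σ _ : ℕ, Σ _ : ℕ, ℕ) := (range n).sigma fun t =>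
      (range t).sigma fun u => T u t
    have h1 : R.card = ∑ t ∈ range n, ∑ u ∈ range t, (T u t).card := by
      simp only [R, card_sigma]
    rw [← h1]
    have hR : ∀ x ∈ R, x.2.1 < x.2.2 ∧ x.2.2 < x.1 ∧ x.1 < n ∧
        Act σ G ({v x.2.1, v x.2.2, v x.1} : Finset (Fin n)) := by
      rintro ⟨t, u, b⟩ hx
      simp only [R, mem_sigma, mem_range, hT, mem_filter, mem_Ico] at hx ⊢
      exact ⟨by omega, hx.2.2.1.2, hx.1, hx.2.2.2⟩
    apply card_le_card_of_injOn fun x => ({v x.2.1, v x.2.2, v x.1} : Finset (Fin n))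
    · intro x hx
      rw [mem_coe]
      unfold acts
      rw [mem_filter]
      exact ⟨mem_univ _, (hR x hx).2.2.2⟩
    · rintro ⟨t, u, b⟩ hx ⟨t', u', b'⟩ hx' h
      have k1 := hR _ hx
      have k2 := hR _ hx'
      simp only at h k1 k2
      obtain ⟨e1, e2, e3⟩ := perm_inj σ (vx_lt hn σ k1.1 (k1.2.1.trans k1.2.2.1))
        (vx_lt hn σ k1.2.1 k1.2.2.1) (vx_lt hn σ k2.1 (k2.2.1.trans k2.2.2.1))
        (vx_lt hn σ k2.2.1 k2.2.2.1) h
      have f1 := hvi _ (by omega) _ (by omega) e1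
      have f2 := hvi _ (by omega) _ (by omega) e2
      have f3 := hvi _ (by omega) _ (by omega) e3
      subst f1
      subst f2
      subst f3
      rfl
  have h1 := min_sum g n s
  have h2 : (∑ t ∈ range n, ∑ u ∈ range t, min s (dg g u t)) ≤
      (∑ t ∈ range n, ∑ u ∈ range t, (B u t).card) +
      ∑ t ∈ range n, ∑ u ∈ range t, (T u t).card := by
    rw [← sum_add_distrib]
    apply sum_le_sum
    intro t ht
    rw [← sum_add_distrib]
    apply sum_le_sum
    intro u hu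
    exact hdg t (mem_range.1 ht) u (mem_range.1 hu)
  have h3 := bnd_kalai n s (by omega)
  zify at h1 h2 hQP hrank hact
  linarith

end Pool.Agent.TH173.KR
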