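import Pool.Agent.TH173.KR.Lists
import Pool.Agent.TH173.KR.Main

/-!
# Kalai's rank bound for the rules 46 and 62
-/

set_option autoImplicit false
open Finset

namespace Pool.Agent.TH173.KR
open Pool.Agent.TH173.TO

theorem kalai46 {n s : ℕ} (hs1 : 1 ≤ s) (hsn : s ≤ n / 3) (E G : Finset (Finset (Fin n)))
    (σ : Equiv.Perm (Fin n)) {C' : Type} [Fintype C']
    (M : Matrix {e : Finset (Fin n) // e ∈ G} C' (KK n s)) (col : Fin s → Fin n × Fin n → C')
    (hM : ∀ (e : {e : Finset (Fin n) // e ∈ G}) (i : Fin s) (q : Fin n × Fin n), q.1 < q.2 →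
      M e (col i q) = ent e.1 i q)
    (Γ : Fin n → Fin n → Prop)
    (hE : ∀ a b c : Fin n, σ a < σ b → σ b < σ c →
      ((Γ a c ∧ Γ b c) ∨ (¬ Γ a b ∧ ¬ Γ a c)) → ({a, b, c} : Finset (Fin n)) ∈ E)
    (hcov : ∀ a b c d : Fin n, σ a < σ b → σ b < σ c → σ c < σ d →
      ((Γ a c ∧ Γ b c) ∨ (¬ Γ a b ∧ ¬ Γ a c)) ∨ ((Γ a d ∧ Γ b d) ∨ (¬ Γ a b ∧ ¬ Γ a d)) ∨
      ((Γ a d ∧ Γ c d) ∨ (¬ Γ a c ∧ ¬ Γ a d)) ∨ ((Γ b d ∧ Γ c d) ∨ (¬ Γ b c ∧ ¬ Γ b d))) :
    (∑ i ∈ Icc 1 s, (((n - 2 * i).choose 2 : ℤ) - (i.choose 2 : ℤ))) ≤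
      (M.rank : ℤ) + ((E \ G).card : ℤ) := by
  classical
  have hn : 0 < n := by omega
  set v : ℕ → Fin n := vx hn σ with hv
  set g : ℕ → ℕ → Bool := fun x y => decide (Γ (v x) (v y)) with hg
  have g1 : ∀ x y, g x y = true ↔ Γ (v x) (v y) := by
    intro x y
    simp [hg]
  have g0 : ∀ x y, g x y = false ↔ ¬ Γ (v x) (v y) := by
    intro x y
    simp [hg]
  have hok : Ok g (range n) := by
    intro a _ b _ c _ d hd hab hbc hcd hbad
    rw [mem_range] at hd
    have h := hcov (v a) (v b) (v c) (v d) (vx_lt hn σ hab (by omega))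
      (vx_lt hn σ hbc (by omega)) (vx_lt hn σ hcd hd)
    unfold Bad at hbad
    simp only [g1, g0] at hbad
    tauto
  refine kalai_lists (by omega) E G M col hM v
    (fun x hx y hy h => vx_inj hn σ (mem_range.1 hx) (mem_range.1 hy) h) g
    (fun x => fl g (range n) x) (fun x => x) (fun x _ y _ h => h) ?_
    (fun x y => (x - y) + (y - x)) (fun x y => Nat.add_comm _ _) ?_ ?_ ?_ ?_ (lists_sum n) ?_
  · intro x hx z hz
    rw [mem_fl] at hz
    exact ⟨hz.1, Or.inl ⟨hz.2.1, hz.2.2⟩, hz.2.1⟩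
  · intro c _ a ha b hb hab
    rw [mem_dl] at ha hb
    omega
  · intro x _ y hy z hz hyz
    rw [mem_fl] at hy hz
    omega
  · intro c hc a ha b hb hab
    rw [mem_dl] at ha hb
    rw [mem_range] at hc
    apply hE _ _ _ (vx_lt hn σ hab (by omega)) (vx_lt hn σ hb.2.1 hc)
    left
    rw [← g1, ← g1]
    exact ⟨ha.2.2, hb.2.2⟩
  · intro x hx y hy z hz hyz
    rw [mem_fl] at hy hz
    have hzn := mem_range.1 hz.1
    apply hE _ _ _ (vx_lt hn σ hy.2.1 (by omega)) (vx_lt hn σ hyz hzn)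
    right
    rw [← g0, ← g0]
    exact ⟨hy.2.2, hz.2.2⟩
  · intro i h1 h2
    exact deficit_ge i (range n) (by rw [card_range]; omega) hok

theorem kalai62 {n s : ℕ} (hs1 : 1 ≤ s) (hsn : s ≤ n / 3) (E G : Finset (Finset (Fin n)))
    (σ : Equiv.Perm (Fin n)) {C' : Type} [Fintype C']
    (M : Matrix {e : Finset (Fin n) // e ∈ G} C' (KK n s)) (col : Fin s → Fin n × Fin n → C')
    (hM : ∀ (e : {e : Finset (Fin n) // e ∈ G}) (i : Fin s) (q : Fin n × Fin n), q.1 < q.2 →
      M e (col i q) = ent e.1 i q)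
    (Γ : Fin n → Fin n → Prop)
    (hE : ∀ a b c : Fin n, σ a < σ b → σ b < σ c →
      ((Γ a c ∧ Γ b c) ∨ (¬ Γ a b ∧ ¬ Γ a c ∧ ¬ Γ b c)) → ({a, b, c} : Finset (Fin n)) ∈ E)
    (hcov : ∀ a b c d : Fin n, σ a < σ b → σ b < σ c → σ c < σ d →
      ((Γ a c ∧ Γ b c) ∨ (¬ Γ a b ∧ ¬ Γ a c ∧ ¬ Γ b c)) ∨
      ((Γ a d ∧ Γ b d) ∨ (¬ Γ a b ∧ ¬ Γ a d ∧ ¬ Γ b d)) ∨
      ((Γ a d ∧ Γ c d) ∨ (¬ Γ a c ∧ ¬ Γ a d ∧ ¬ Γ c d)) ∨
      ((Γ b d ∧ Γ c d) ∨ (¬ Γ b c ∧ ¬ Γ b d ∧ ¬ Γ c d))) :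
    (∑ i ∈ Icc 1 s, (((n - 2 * i).choose 2 : ℤ) - (i.choose 2 : ℤ))) ≤
      (M.rank : ℤ) + ((E \ G).card : ℤ) := by
  classical
  have hn : 0 < n := by omega
  set v : ℕ → Fin n := vx hn σ with hv
  set g : ℕ → ℕ → Bool := fun x y => decide (Γ (v x) (v y)) with hg
  have g1 : ∀ x y, g x y = true ↔ Γ (v x) (v y) := by
    intro x y
    simp [hg]
  have g0 : ∀ x y, g x y = false ↔ ¬ Γ (v x) (v y) := by
    intro x y
    simp [hg]
  have hcv : Cov g (range n) := by
    intro Q hQ hQ4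
    let f := Q.orderEmbOfFin hQ4
    have hf' : ∀ i, f i ∈ Q := fun i => Q.orderEmbOfFin_mem hQ4 i
    have hfl : ∀ i j, i < j → f i < f j := fun i j h => (Q.orderEmbOfFin hQ4).strictMono h
    have l01 := hfl 0 1 (by decide)
    have l12 := hfl 1 2 (by decide)
    have l23 := hfl 2 3 (by decide)
    have l3 := mem_range.1 (hQ (hf' 3))
    have key : ∀ i j k, i < j → j < k →
        ((Γ (v (f i)) (v (f k)) ∧ Γ (v (f j)) (v (f k))) ∨
          (¬ Γ (v (f i)) (v (f j)) ∧ ¬ Γ (v (f i)) (v (f k)) ∧ ¬ Γ (v (f j)) (v (f k)))) →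
        ∃ x ∈ Q, ∃ y ∈ Q, ∃ z ∈ Q, x ≠ y ∧
        ((x < z ∧ y < z ∧ g x z = true ∧ g y z = true) ∨ (C g x y ∧ C g x z ∧ C g y z)) := by
      intro i j k hij hjk hk
      have l1 := hfl i j hij
      have l2 := hfl j k hjk
      refine ⟨f i, hf' i, f j, hf' j, f k, hf' k, l1.ne, ?_⟩
      simp only [← g0] at hk
      simp only [← g1] at hk
      rcases hk with h | h
      · exact Or.inl ⟨l1.trans l2, l2, h.1, h.2⟩
      · exact Or.inr ⟨(C_of_lt l1).2 h.1, (C_of_lt (l1.trans l2)).2 h.2.1, (C_of_lt l2).2 h.2.2⟩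
    rcases hcov (v (f 0)) (v (f 1)) (v (f 2)) (v (f 3)) (vx_lt hn σ l01 (by omega))
      (vx_lt hn σ l12 (by omega)) (vx_lt hn σ l23 l3) with h | h | h | h
    · exact key 0 1 2 (by decide) (by decide) h
    · exact key 0 1 3 (by decide) (by decide) h
    · exact key 0 2 3 (by decide) (by decide) h
    · exact key 1 2 3 (by decide) (by decide) h
  obtain ⟨τ, hτ, _⟩ := exists_peo (n - 1) (range n) (by rw [card_range]; omega) hcv 0
    (mem_range.2 hn)
  -- the order of the pairs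
  set B := 1 + ∑ x ∈ range n, τ x with hB
  have hτB : ∀ x ∈ range n, τ x < B := by
    intro x hx
    have := single_le_sum (f := τ) (fun p _ => Nat.zero_le _) hx
    omega
  set r : ℕ → ℕ → ℕ := fun x y => if g (min x y) (max x y) = true then
    B + (n * max x y + (n - min x y)) else (τ x - τ y) + (τ y - τ x) with hr
  have hrsym : ∀ x y, r x y = r y x := by
    intro x y
    simp only [hr, min_comm y x, max_comm y x]
    congr 1
    omega
  have hrG : ∀ x y, x < y → g x y = true → r x y = B + (n * y + (n - x)) := by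
    intro x y hxy hgxy
    simp only [hr, min_eq_left hxy.le, max_eq_right hxy.le, if_pos hgxy]
  have hrC : ∀ x y, C g x y → r x y = (τ x - τ y) + (τ y - τ x) := by
    intro x y hxy
    rcases hxy with ⟨h1, h2⟩ | ⟨h1, h2⟩
    · simp [hr, min_eq_left h1.le, max_eq_right h1.le, h2]
    · simp [hr, min_eq_right h1.le, max_eq_left h1.le, h2]
  refine kalai_lists (by omega) E G M col hM v
    (fun x hx y hy h => vx_inj hn σ (mem_range.1 hx) (mem_range.1 hy) h) g
    (fun x => pl g τ (range n) x) τ hτ.inj ?_ r hrsym ?_ ?_ ?_ ?_ (lists_sum62 n τ hτ.inj) ?_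
  · intro x _ z hz
    rw [mem_pl] at hz
    exact hz
  · intro c hc a ha b hb hab
    rw [mem_dl] at ha hb
    rw [hrG a c ha.2.1 ha.2.2, hrG b c hb.2.1 hb.2.2]
    have hbn := mem_range.1 hb.1
    constructor
    · by_cases h : g a b = true
      · rw [hrG a b hab h]
        have : n * b < n * c := Nat.mul_lt_mul_of_pos_left hb.2.1 hn
        omega
      · rw [hrC a b (Or.inl ⟨hab, by simpa using h⟩)]
        have h3 := hτB a ha.1
        have h4 := hτB b hb.1
        have h5 : 0 < n * c := Nat.mul_pos hn (by omega)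
        omega
    · omega
  · intro x hx y hy z hz hyz
    have hyz' : y ≠ z := fun h => by
      rw [h] at hyz
      exact lt_irrefl _ hyz
    rw [mem_pl] at hy hz
    have h1 := hτ.clq x hx y hy.1 z hz.1 hy.2.1.symm hz.2.1.symm hy.2.2 hz.2.2 hyz'
    rw [hrC x y hy.2.1, hrC x z hz.2.1, hrC y z h1]
    have := hy.2.2
    have := hz.2.2
    omega
  · intro c hc a ha b hb hab
    rw [mem_dl] at ha hb
    rw [mem_range] at hc
    apply hE _ _ _ (vx_lt hn σ hab (by omega)) (vx_lt hn σ hb.2.1 hc)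
    left
    rw [← g1, ← g1]
    exact ⟨ha.2.2, hb.2.2⟩
  · intro x hx y hy z hz hyz
    have hyz' : y ≠ z := fun h => by
      rw [h] at hyz
      exact lt_irrefl _ hyz
    rw [mem_pl] at hy hz
    have h1 := hτ.clq x hx y hy.1 z hz.1 hy.2.1.symm hz.2.1.symm hy.2.2 hz.2.2 hyz'
    -- sort the triangle
    have hall : ∀ p ∈ ({x, y, z} : Finset ℕ), ∀ q ∈ ({x, y, z} : Finset ℕ), p ≠ q →
        C g p q := by
      intro p hp q hq hpq
      simp only [mem_insert, mem_singleton] at hp hq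
      have a1 := hy.2.1
      have a2 := hz.2.1
      rcases hp with rfl | rfl | rfl <;> rcases hq with rfl | rfl | rfl <;>
        first
        | exact absurd rfl hpq
        | exact h1
        | exact a1
        | exact a2
        | exact h1.symm
        | exact a1.symm
        | exact a2.symm
    have hlt : ∀ p ∈ ({x, y, z} : Finset ℕ), p < n := by
      intro p hp
      simp only [mem_insert, mem_singleton] at hp
      rcases hp with rfl | rfl | rfl
      · exact mem_range.1 hx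
      · exact mem_range.1 hy.1
      · exact mem_range.1 hz.1
    obtain ⟨a, b, c, hab, hbc, he⟩ := OE.exists_sorted (e := ({x, y, z} : Finset ℕ))
      (card_eq_three.2 ⟨x, y, z, hy.2.1.ne, hz.2.1.ne, h1.ne, rfl⟩)
    have he' : ({v x, v y, v z} : Finset (Fin n)) = {v a, v b, v c} := by
      have := congrArg (fun e : Finset ℕ => e.image v) he
      simpa only [image_insert, image_singleton] using this
    rw [he] at hall hlt
    rw [he']
    have hcn := hlt c (by simp)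
    apply hE _ _ _ (vx_lt hn σ hab (by omega)) (vx_lt hn σ hbc hcn)
    right
    rw [← g0, ← g0, ← g0]
    exact ⟨(C_of_lt hab).1 (hall a (by simp) b (by simp) hab.ne),
      (C_of_lt (hab.trans hbc)).1 (hall a (by simp) c (by simp) (hab.trans hbc).ne),
      (C_of_lt hbc).1 (hall b (by simp) c (by simp) hbc.ne)⟩
  · intro i h1 h2
    have := deficit62 i (range n) τ hτ hcv (by rw [card_range]; omega)
    unfold ddef TO.val at this
    rw [sum_add_distrib]
    exact this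

end Pool.Agent.TH173.KR
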